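import Pool.Agent.Helper48.OD.St

/-! Project OD (MP_b3ce06_al), module CHV: the ring of class O in characteristic two. -/

set_option autoImplicit false

namespace Pool.Agent.Helper37.OD

open Pool.Agent.Helper43.GD Pool.Agent.Helper48.OD

/-- in a finite commutative group: `x^k` is a power of `x^l` if its order divides that of `x^l` -/
private lemma mem_pow {G : Type} [CommGroup G] [Finite G] (x : G) (k l : ℕ)
    (h : orderOf (x ^ k) ∣ orderOf (x ^ l)) : ∃ j : ℤ, (x ^ l) ^ j = x ^ k := by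
  have hn : 0 < orderOf x := orderOf_pos x
  rw [orderOf_pow, orderOf_pow] at h
  set n := orderOf x with hnd
  have hd : Nat.gcd n l ∣ n := Nat.gcd_dvd_left n l
  have he : Nat.gcd n k ∣ n := Nat.gcd_dvd_left n k
  obtain ⟨c, hc⟩ := h
  have e1 : Nat.gcd n l * (n / Nat.gcd n l) = n := Nat.mul_div_cancel' hd
  have e2 : Nat.gcd n k * (n / Nat.gcd n k) = n := Nat.mul_div_cancel' he
  have hpos : 0 < n / Nat.gcd n k := Nat.div_pos (Nat.le_of_dvd hn he) (Nat.gcd_pos_of_pos_left _ hn)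
  have e3 : Nat.gcd n k = Nat.gcd n l * c := by
    rw [hc] at e1
    have : Nat.gcd n k * (n / Nat.gcd n k) = (Nat.gcd n l * c) * (n / Nat.gcd n k) := by
      rw [e2]
      nlinarith [e1]
    exact Nat.eq_of_mul_eq_mul_right hpos this
  have h4 : Nat.gcd n l ∣ k := (Dvd.intro c e3.symm).trans (Nat.gcd_dvd_right n k)
  obtain ⟨k', hk'⟩ := h4
  refine ⟨Nat.gcdB n l * k', ?_⟩
  have hb := Nat.gcd_eq_gcd_ab n l
  have h5 : (k : ℤ) = (n : ℤ) * (Nat.gcdA n l * k') + (l : ℤ) * (Nat.gcdB n l * k') := by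
    rw [hk', Nat.cast_mul, hb]
    ring
  have h6 : x ^ ((n : ℤ) * (Nat.gcdA n l * k')) = 1 := by
    rw [zpow_mul, zpow_natCast, hnd, pow_orderOf_eq_one, one_zpow]
  rw [← zpow_natCast x l, ← zpow_mul, ← zpow_natCast x k, h5, zpow_add, h6, one_mul]

private lemma nat_pow {G : Type} [CommGroup G] [Finite G] {x y : G} {j : ℤ} (h : x ^ j = y) :
    ∃ m : ℕ, 2 ≤ m ∧ x ^ m = y := by
  have h1 : y ∈ Submonoid.powers x := by
    rw [mem_powers_iff_mem_zpowers]
    exact ⟨j, h⟩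
  obtain ⟨m, hm⟩ := h1
  refine ⟨m + orderOf x * 2, ?_, ?_⟩
  · have := orderOf_pos x
    omega
  · rw [pow_add, pow_mul, pow_orderOf_eq_one, one_pow, mul_one]
    exact hm

theorem hCHV (h1 : StCHT) (h2 : StGNV) : StCHV := by
  intro l k h r L _ x hnt hR hnil
  obtain ⟨h20, f, hfk, hfl⟩ := h1 l k h r L x hR hnil
  have hfin : Finite L := hR.fin
  have hneg : (-1 : L) = 1 := by linear_combination -h20
  have hnegu : (-1 : Lˣ) = 1 := Units.ext (by simpa using hneg)
  have hxh : x ^ h = 1 := by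
    apply Units.ext
    rw [Units.val_pow_eq_pow_val, hR.xh, hneg, Units.val_one]
  have gv : Gn ((x ^ k : Lˣ) : L) := h2 l k h L x hfin hR.gc hR.gn hR.xh hR.tri
  have hvr : (x ^ k) ^ r = 1 := by
    rw [← pow_mul]
    have h3 : h ∣ k * r := by
      have := (Dvd.intro_left 2 rfl : h ∣ 2 * h).trans hR.rk
      rwa [mul_comm] at this
    obtain ⟨c, hc⟩ := h3
    rw [hc, pow_mul, hxh, one_pow]
  have hv1 : x ^ k ≠ 1 := by
    intro h3
    have h4 : (x : L) ^ k = 1 := by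
      have := congrArg Units.val h3
      simpa using this
    have h5 : (x : L) ^ l = 0 := by
      have := hR.tri
      rw [h4] at this
      linear_combination this
    have h6 : IsUnit ((x : L) ^ l) := x.isUnit.pow l
    rw [h5] at h6
    exact not_isUnit_zero h6
  have hord : orderOf (x ^ k) = r := orderOf_eq_prime hvr hv1 (hp := ⟨hR.rp⟩)
  -- it is enough to find `y`
  suffices hy : ∃ (y : Lˣ) (j : ℤ) (c : ℤ), x ^ c = y ∧ ((y ^ j : Lˣ) : L) = (y : L) + 1 ∧
      y ^ (2 ^ (f + 1)) = y ∧ (∃ i : ℕ, y ^ i = x ^ k ∨ y ^ i = (x ^ k)⁻¹) by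
    obtain ⟨y, j, c, hc, hj, hyf, i, hi⟩ := hy
    obtain ⟨m, hm2, hm⟩ := nat_pow (rfl : y ^ j = y ^ j)
    obtain ⟨c', -, hc'⟩ := nat_pow hc
    have e : x ^ (2 * (2 ^ f * c')) = y := by
      have : 2 * (2 ^ f * c') = c' * 2 ^ (f + 1) := by ring
      rw [this, pow_mul, hc', hyf]
    refine ⟨m, 2 ^ f * c', ?_⟩
    rw [e]
    refine ⟨hm2, h20, ?_, ?_⟩
    · rw [← hj, ← hm, Units.val_pow_eq_pow_val]
    · rw [gn_iff] at gv ⊢
      intro R hyR
      apply gv R
      have h3 : ((y ^ i : Lˣ) : L) ∈ R := by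
        rw [Units.val_pow_eq_pow_val]
        exact R.pow_mem hyR i
      rcases hi with hi | hi
      · rwa [hi] at h3
      · rw [hi] at h3
        have := inv_mem R _ h3
        rwa [inv_inv] at this
  by_cases hrN : r ∣ orderOf (x ^ l)
  · -- first case
    rw [← hord] at hrN
    obtain ⟨j, hj⟩ := mem_pow x k l hrN
    obtain ⟨i, -, hi⟩ := nat_pow hj
    refine ⟨x ^ l, j, l, zpow_natCast x l, ?_, hfl, i, Or.inl hi⟩
    rw [hj, Units.val_pow_eq_pow_val, Units.val_pow_eq_pow_val]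
    have := hR.tri
    linear_combination this - (x : L) ^ l * h20
  · -- second case
    have hcop : Nat.Coprime r (orderOf (x ^ l)) := (Nat.Prime.coprime_iff_not_dvd hR.rp).2 hrN
    set N := orderOf (x ^ l) with hN
    have e1 : (x ^ l * (x ^ k)⁻¹) ^ N = ((x ^ k)⁻¹) ^ N := by
      rw [mul_pow, hN, pow_orderOf_eq_one, one_mul]
    have hcop' : Nat.Coprime (orderOf (x ^ k)⁻¹) N := by rw [orderOf_inv, hord]; exact hcop
    obtain ⟨m, hm⟩ := exists_pow_eq_self_of_coprime hcop'.symm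
    refine ⟨x ^ l * (x ^ k)⁻¹, ((N * m : ℕ) : ℤ), (l : ℤ) - k, ?_, ?_, ?_, N * m, Or.inr ?_⟩
    · rw [zpow_sub, zpow_natCast, zpow_natCast]
    · rw [zpow_natCast, pow_mul, e1, hm, Units.val_mul]
      have h3 : (((x ^ k)⁻¹ : Lˣ) : L) * (x : L) ^ k = 1 := by
        rw [← Units.val_pow_eq_pow_val, Units.inv_mul]
      have h4 := hR.tri
      rw [Units.val_pow_eq_pow_val]
      linear_combination (-(((x ^ k)⁻¹ : Lˣ) : L)) * h4 + h3
    · rw [mul_pow, hfl, inv_pow, hfk]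
    · rw [pow_mul, e1, hm]

end Pool.Agent.Helper37.OD
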