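import Pool.Agent.Helper48.OD.St

/-! Project OD (MP_b3ce06_al), module GDK: Good elements are in `K4`. -/

set_option autoImplicit false

namespace Pool.Agent.Helper37.OD

open Pool.Agent.Helper43.GD Pool.Agent.Helper48.OD

private lemma neg_one_ne_one {L : Type} [CommRing L] [Nontrivial L] (h2 : IsUnit (2 : L)) :
    (-1 : Lˣ) ≠ 1 := by
  intro h
  have h3 : (-1 : L) = 1 := by
    have := congrArg Units.val h
    simpa using this
  have h4 : (2 : L) = 0 := by linear_combination -h3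
  rw [h4] at h2
  exact not_isUnit_zero h2

private lemma pick {X : Type} {a b c : X} (hab : a ≠ b) (hac : a ≠ c) (hbc : b ≠ c) (p q : X) :
    ∃ x, (x = a ∨ x = b ∨ x = c) ∧ x ≠ p ∧ x ≠ q := by
  by_contra hcon
  push Not at hcon
  have ha := hcon a (Or.inl rfl)
  have hb := hcon b (Or.inr (Or.inl rfl))
  have hc := hcon c (Or.inr (Or.inr rfl))
  by_cases hap : a = p
  · have h1 := hb (fun h => hab (hap.trans h.symm))
    have h2 := hc (fun h => hac (hap.trans h.symm))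
    exact hbc (h1.trans h2.symm)
  · have haq := ha hap
    by_cases hbp : b = p
    · have h2 := hc (fun h => hbc (hbp.trans h.symm))
      exact hac (haq.trans h2.symm)
    · have hbq := hb hbp
      exact hab (haq.trans hbq.symm)

private lemma gn_inv {L : Type} [CommRing L] [Finite L] {ξ : Lˣ} (h : Gn (ξ : L)) :
    Gn ((ξ⁻¹ : Lˣ) : L) := by
  rw [gn_iff] at h ⊢
  intro R hR
  apply h R
  have := inv_mem R ξ⁻¹ hR
  rwa [inv_inv] at this

theorem hGDK (h1 : Pool.Agent.Helper48.OD.StL13) (h2 : StPRD) : StGDK := by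
  intro L A _ _ Q y hQ hy
  have hfin : Finite L := hQ.fin
  have hnt : Nontrivial L := hQ.nt
  have hne : (-1 : Lˣ) ≠ 1 := neg_one_ne_one hQ.two
  refine ⟨hy.1, ?_⟩
  intro ζ hζ hζt hE
  by_cases hev : Ev y
  · -- `y` is even
    by_cases h0 : ζ = 1
    · rw [h0, one_mul]
      exact hy
    · exact h2 L A Q ζ y hQ (hQ.z2 ζ hζ hζt h0) hy (hQ.ui.ev_of_tw hζ hζt h0) hev hE
  · have hod : Od y := (hQ.ui.ev_or_od hy.1).resolve_left hev
    have h0 : ζ ≠ 1 := by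
      rintro rfl
      rw [one_mul] at hE
      exact hev hE
    obtain ⟨ξ, hξe, hξg, hξn⟩ := hQ.xi
    have hξU : ξ ∈ Q.U := hξg.1
    have e1 : Ev (y * ξ) := by
      rw [mul_comm]
      exact hξe.mul_od hod
    have g1 : Gd Q (y * ξ) := by
      refine h1.2 L A Q (y * ξ) ξ⁻¹ hQ.toCB (Q.U.mul_mem hy.1 hξU) e1 (Gd.inv Q hξg) (gn_inv hξn) ?_
      have e0 : y * ξ * ξ⁻¹ = y := by rw [mul_assoc, mul_inv_cancel, mul_one]
      rw [e0]
      exact hy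
    obtain ⟨θ, hθU, hθ⟩ := hQ.th
    obtain ⟨i, j, hi, hj, hij⟩ := decomp ξ⁻¹
    have hθ1 : θ ≠ -1 := by
      rintro rfl
      rw [neg_one_sq] at hθ
      exact hne hθ.symm
    have hθ2 : θ ≠ -θ := by
      intro h
      apply hne
      have h3 : θ * 1 = θ * (-1) := by rw [mul_one, mul_neg_one]; exact h
      exact (mul_left_cancel h3).symm
    have hθ3 : (-1 : Lˣ) ≠ -θ := by
      intro h
      have h3 : (1 : Lˣ) = θ := neg_injective h
      rw [← h3, one_pow] at hθ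
      exact hne hθ.symm
    have hθ4 : θ ≠ 1 := by
      rintro rfl
      rw [one_pow] at hθ
      exact hne hθ.symm
    have hθ5 : -θ ≠ 1 := by
      intro h
      apply hθ1
      rw [← h, neg_neg]
    have hθt : Tw θ := ⟨2, by
      rw [show (2 : ℕ) ^ 2 = 2 * 2 from rfl, pow_mul, hθ, neg_one_sq]⟩
    have hθt' : Tw (-θ) := by
      have := Tw.neg_one.mul hθt
      rwa [neg_one_mul] at this
    obtain ⟨ζ₁, hz, hz1, hz2⟩ := pick hθ1 hθ2 hθ3 ζ ((ξ⁻¹ ^ i)⁻¹)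
    have hz3 : ζ₁ ∈ Q.U ∧ Tw ζ₁ ∧ ζ₁ ≠ 1 := by
      rcases hz with rfl | rfl | rfl
      · exact ⟨hθU, hθt, hθ4⟩
      · exact ⟨Q.neg, Tw.neg_one, hne⟩
      · exact ⟨neg_mem Q hθU, hθt', hθ5⟩
    obtain ⟨hzU, hzt, hz0⟩ := hz3
    have gz : Gd Q ζ₁ := hQ.z2 ζ₁ hzU hzt hz0
    have ez : Ev ζ₁ := hQ.ui.ev_of_tw hzU hzt hz0
    have e2 : Ev (ζ₁ * ξ⁻¹) := by
      rw [← hij, ← mul_assoc]
      apply Ev.mul_od _ hj
      apply hQ.ui.ev_of_tw (Q.U.mul_mem hzU (Q.U.pow_mem (Q.U.inv_mem hξU) i)) (hzt.mul hi)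
      intro h
      exact hz2 (eq_inv_of_mul_eq_one_left h)
    have g2 : Gd Q (ζ₁ * ξ⁻¹) := h2 L A Q ζ₁ ξ⁻¹ hQ gz (Gd.inv Q hξg) ez hξe.inv e2
    have e3 : Ev (ζ₁ * y) := ez.mul_od hod
    have e4 : (y * ξ) * (ζ₁ * ξ⁻¹) = ζ₁ * y := by
      rw [mul_comm ζ₁ ξ⁻¹, mul_assoc y ξ, mul_inv_cancel_left, mul_comm]
    have g3 : Gd Q (ζ₁ * y) := by
      rw [← e4]
      apply h2 L A Q _ _ hQ g1 g2 e1 e2
      rw [e4]
      exact e3
    have hw : ζ * ζ₁⁻¹ ≠ 1 := by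
      intro h
      exact hz1 (mul_inv_eq_one.1 h).symm
    have hwU : ζ * ζ₁⁻¹ ∈ Q.U := Q.U.mul_mem hζ (Q.U.inv_mem hzU)
    have hwt : Tw (ζ * ζ₁⁻¹) := hζt.mul hzt.inv
    have e5 : (ζ * ζ₁⁻¹) * (ζ₁ * y) = ζ * y := by
      rw [mul_assoc, inv_mul_cancel_left]
    rw [← e5]
    apply h2 L A Q _ _ hQ (hQ.z2 _ hwU hwt hw) g3 (hQ.ui.ev_of_tw hwU hwt hw) e3
    rw [e5]
    exact hE

end Pool.Agent.Helper37.OD
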